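import Pool.Agent.H200W.Stm4

/-! Project WR: job COR2. -/

set_option autoImplicit false

namespace Pool.Agent.Q53.WR

open Finset Pool.Agent.TH176.Nag Pool.Agent.TH603.Sur Pool.Agent.TH2.NU Pool.Agent.TH641.UM
open Pool.Agent.Y205.FW Pool.Agent.Y205.MD Pool.Agent.H200W

theorem sur_drop {ι κ : Type} [Fintype ι] [Fintype κ] {v : ι → ℕ} {w : κ → ℕ} {S : Set (ℤ × ℤ)}
    (h : Sur (Sum.elim v w) S) : Sur v S := by
  have h1 : Sur (Sum.elim v (fun _ : κ => 0)) S := Sur_anti (by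
    rintro (i | i)
    · exact le_refl _
    · exact Nat.zero_le _) h
  obtain ⟨T, hT, hTc, K, _, _, x, y, hx, hy, hf⟩ := h1
  refine ⟨T, hT, ?_, K, _, inferInstance, fun i => x (Sum.inl i), fun i => y (Sum.inl i),
    fun i => hx _, fun i => hy _, ?_⟩
  · rw [hTc]
    unfold TH603.Sur.cond
    rw [Fintype.sum_sum_type]
    simp
  · intro f h1 h2
    apply hf f h1
    rintro (i | i)
    · exact h2 i
    · apply LM_of_mono
      intro a b hab
      simp at hab

theorem choose_le_sq (a : ℕ) : (a + 1).choose 2 ≤ a ^ 2 := by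
  rw [Nat.choose_two_right]
  rcases Nat.eq_zero_or_pos a with rfl | ha
  · simp
  · apply Nat.div_le_of_le_mul
    rw [Nat.add_sub_cancel]
    nlinarith

theorem condM_le (w : Multiset ℕ) : TH2.NU.condM w ≤ (w.map fun v => v ^ 2).sum := by
  unfold TH2.NU.condM
  exact Multiset.sum_map_le_sum_map _ _ fun a _ => choose_le_sq a

theorem cond_vec (w : Multiset ℕ) : TH603.Sur.cond (vec w) = TH2.NU.condM w := by
  unfold TH603.Sur.cond TH2.NU.condM
  exact sum_vec w fun a => (a + 1).choose 2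

theorem cor2 : S_Corank2 := by
  intro hC d M1 M2 M3 μ w h32 h21 hd hM hμ hmem hw hbig
  rcases le_or_gt (2 ^ 28 * w.toFinset.card * μ ^ 2) ((w.map fun v => v ^ 2).sum) with hs | hs
  · exact hC w h32 h21 hd hM hμ hw hs
  obtain ⟨D, hD⟩ : ∃ D, D = 2 ^ 28 * w.toFinset.card * μ ^ 2 - (w.map fun v => v ^ 2).sum := ⟨_, rfl⟩
  obtain ⟨k, hk⟩ : ∃ k, k = D / μ ^ 2 + 1 := ⟨_, rfl⟩
  have hμ2 : 0 < μ ^ 2 := by positivity
  have hk1 : D ≤ k * μ ^ 2 := by
    have h1 := Nat.div_add_mod D (μ ^ 2)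
    have h2 : D % μ ^ 2 < μ ^ 2 := Nat.mod_lt D hμ2
    have h3 : k * μ ^ 2 = μ ^ 2 * (D / μ ^ 2) + μ ^ 2 := by rw [hk]; ring
    rw [h3]
    exact (h1.symm.le).trans (Nat.add_le_add_left h2.le _)
  have hk2 : k * μ ^ 2 ≤ D + μ ^ 2 := by
    have h1 : μ ^ 2 * (D / μ ^ 2) ≤ D := Nat.mul_div_le D (μ ^ 2)
    have h3 : k * μ ^ 2 = μ ^ 2 * (D / μ ^ 2) + μ ^ 2 := by rw [hk]; ring
    rw [h3]
    exact Nat.add_le_add_right h1 _
  have htf : (w + Multiset.replicate k μ).toFinset = w.toFinset := by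
    ext a
    simp only [Multiset.mem_toFinset, Multiset.mem_add, Multiset.mem_replicate]
    constructor
    · rintro (h | ⟨_, rfl⟩)
      · exact h
      · exact hmem
    · exact fun h => Or.inl h
  have hsum : ((w + Multiset.replicate k μ).map fun v => v ^ 2).sum =
      (w.map fun v => v ^ 2).sum + k * μ ^ 2 := by
    rw [Multiset.map_add, Multiset.sum_add, Multiset.map_replicate, Multiset.sum_replicate,
      smul_eq_mul]
  have hr : 1 ≤ w.toFinset.card := Finset.card_pos.2 ⟨μ, by simpa using hmem⟩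
  have h1 := hC (w + Multiset.replicate k μ) h32 h21 hd hM hμ (by
    intro v hv
    rw [Multiset.mem_add, Multiset.mem_replicate] at hv
    rcases hv with hv | ⟨_, rfl⟩
    · exact hw v hv
    · exact ⟨hμ, le_refl _⟩) (by rw [htf, hsum]; omega)
  have h2 : TH2.NU.condM (w + Multiset.replicate k μ) ≤ (HX M1 M2 M3 d).card := by
    refine (condM_le _).trans ?_
    rw [hsum]
    have h3 : μ ^ 2 ≤ w.toFinset.card * μ ^ 2 := Nat.le_mul_of_pos_left _ hr
    have h4 : 2 ^ 29 * w.toFinset.card * μ ^ 2 = 2 * (2 ^ 28 * w.toFinset.card * μ ^ 2) := by ring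
    have h5 : 2 ^ 28 * w.toFinset.card * μ ^ 2 = 2 ^ 28 * (w.toFinset.card * μ ^ 2) := by ring
    omega
  obtain ⟨T, t1, t2, t3⟩ := crk_spec (HX M1 M2 M3 d) (vec (w + Multiset.replicate k μ))
  have h3 : TH2.NU.condM (w + Multiset.replicate k μ) ≤ T.card := by
    unfold crkM at h1
    omega
  obtain ⟨T0, s1, s2⟩ := Finset.exists_subset_card_eq h3
  have h4 : SurM (w + Multiset.replicate k μ) (↑(HX M1 M2 M3 d) : Set (ℤ × ℤ)) :=
    ⟨T0, by exact_mod_cast s1.trans t1, by rw [s2]; exact (cond_vec _).symm,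
      t3.mono (by exact_mod_cast s1)⟩
  have h5 : Sur (vec w) (↑(HX M1 M2 M3 d) : Set (ℤ × ℤ)) := by
    apply sur_drop (w := fun _ : Fin k => μ)
    refine (SurM_iff ?_ _).1 h4
    rw [ms_sum, ms_fin, Multiset.nsmul_singleton]
    congr 1
    exact ms_toList w
  have h6 := crk_of_Sur h5
  rw [cond_vec] at h6
  unfold crkM
  omega

end Pool.Agent.Q53.WR
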