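import Pool.Agent.H200W.Stm2

/-! Project WR: job DIV (dividing a set by a family of cuts). -/

set_option autoImplicit false

namespace Pool.Agent.Q53.WR

open Finset Pool.Agent.TH176.Nag Pool.Agent.TH603.Sur Pool.Agent.TH2.NU Pool.Agent.TH641.UM
open Pool.Agent.Y205.FW Pool.Agent.Y205.MD Pool.Agent.H200W

theorem surM_zero (S : Set (ℤ × ℤ)) : SurM 0 S := by
  rw [SurM_iff (w := fun i : Fin 0 => (0 : ℕ)) (by simp [ms])]
  refine ⟨∅, by simp, by simp [TH603.Sur.cond], ?_⟩
  simpa using Emp_empty _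

/-- a list of numbers in `[0, u]`: the longest initial part of sum at most `A` -/
theorem split_le {β : Type} (f : β → ℝ) {u A : ℝ} (hA : 0 ≤ A) (L : List β)
    (h : ∀ x ∈ L, 0 ≤ f x ∧ f x ≤ u) (hL : A < (L.map f).sum) :
    ∃ L1 L2 : List β, L = L1 ++ L2 ∧ (L1.map f).sum ≤ A ∧ A - u < (L1.map f).sum := by
  induction L generalizing A with
  | nil => simp at hL; linarith
  | cons x L ih =>
    by_cases hx : f x ≤ A
    · obtain ⟨L1, L2, e, h1, h2⟩ := ih (A := A - f x) (by linarith)
        (fun y hy => h y (List.mem_cons_of_mem _ hy)) (by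
          rw [List.map_cons, List.sum_cons] at hL; linarith)
      refine ⟨x :: L1, L2, by rw [e]; rfl, ?_, ?_⟩
      · rw [List.map_cons, List.sum_cons]; linarith
      · rw [List.map_cons, List.sum_cons]; linarith
    · refine ⟨[], x :: L, rfl, by simpa using hA, ?_⟩
      have := (h x (by simp)).2
      push Not at hx
      simp only [List.map_nil, List.sum_nil]
      linarith

/-- a list of numbers in `[0, u]`: the shortest initial part of sum at least `A` -/
theorem split_ge {β : Type} (f : β → ℝ) {u A : ℝ} (hA : 0 ≤ A) (hu : 0 ≤ u) (L : List β)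
    (h : ∀ x ∈ L, 0 ≤ f x ∧ f x ≤ u) (hL : A ≤ (L.map f).sum) :
    ∃ L1 L2 : List β, L = L1 ++ L2 ∧ A ≤ (L1.map f).sum ∧ (L1.map f).sum ≤ A + u := by
  induction L generalizing A with
  | nil => exact ⟨[], [], rfl, hL, by simp; linarith⟩
  | cons x L ih =>
    have hx0 := (h x (by simp)).1
    have hxu := (h x (by simp)).2
    by_cases hx : f x ≤ A
    · obtain ⟨L1, L2, e, h1, h2⟩ := ih (A := A - f x) (by linarith)
        (fun y hy => h y (List.mem_cons_of_mem _ hy)) (by
          rw [List.map_cons, List.sum_cons] at hL; linarith)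
      refine ⟨x :: L1, L2, by rw [e]; rfl, ?_, ?_⟩
      · rw [List.map_cons, List.sum_cons]; linarith
      · rw [List.map_cons, List.sum_cons]; linarith
    · push Not at hx
      refine ⟨[x], L, rfl, ?_, ?_⟩
      · simpa using hx.le
      · simp only [List.map_cons, List.map_nil, List.sum_cons, List.sum_nil]; linarith

theorem divS : S_DivS := by
  intro h u t0 t1 α S S1 S2 α1 α2 ht hc h0 hu hu0 hα hS1 hS2 hcut L hL hs
  have ht1 : t1 ∈ Set.Icc t0 t1 := ⟨ht, le_refl _⟩
  by_cases hle : (L.map Prod.snd).sum ≤ α1 t1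
  · have := hcut t1 ht1 (L.map Prod.fst).sum 0 (hS1 t1 ht1 L hL hle) (surM_zero _)
    simpa using this
  · push Not at hle
    obtain ⟨L1, L2, e, h1, h2⟩ := split_le Prod.snd (u := u) (A := α1 t1) (by linarith) L
      (fun x hx => (hL x hx).2) hle
    obtain ⟨t, ht', hte⟩ := intermediate_value_Icc ht hc (show (L1.map Prod.snd).sum ∈
      Set.Icc (α1 t0) (α1 t1) from ⟨by linarith, h1⟩)
    subst e
    rw [List.map_append, List.sum_append] at hs
    rw [List.map_append, List.sum_append]
    refine hcut t ht' _ _ (hS1 t ht' L1 (fun x hx => hL x (List.mem_append_left _ hx)) hte.ge) 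
      (hS2 t ht' L2 (fun x hx => hL x (List.mem_append_right _ hx)) ?_)
    have := hα t ht'
    linarith

theorem divE : S_DivE := by
  intro h u t0 t1 α S S1 S2 α1 α2 ht hc h0 hu hu0 hα hα2 hS1 hS2 hcut L hL hs
  have ht0 : t0 ∈ Set.Icc t0 t1 := ⟨le_refl _, ht⟩
  obtain ⟨L1, L2, e, h1, h2⟩ := split_ge Prod.snd (u := u) (A := α1 t0) h0 hu0 L
    (fun x hx => (hL x hx).2) (by
      have := hα t0 ht0
      have := hα2 t0 ht0
      linarith)
  obtain ⟨t, ht', hte⟩ := intermediate_value_Icc ht hc (show (L1.map Prod.snd).sum ∈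
    Set.Icc (α1 t0) (α1 t1) from ⟨h1, by linarith⟩)
  subst e
  rw [List.map_append, List.sum_append] at hs
  rw [List.map_append, List.sum_append]
  refine hcut t ht' _ _ (hS1 t ht' L1 (fun x hx => hL x (List.mem_append_left _ hx)) hte.le) 
    (hS2 t ht' L2 (fun x hx => hL x (List.mem_append_right _ hx)) ?_)
  have := hα t ht'
  linarith

theorem div : S_DivS ∧ S_DivE := ⟨divS, divE⟩

end Pool.Agent.Q53.WR
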