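import Pool.Agent.Q53.WR.Div

/-! Project WR: jobs APEXS, APEXE (lists of units on a right triangle). -/

set_option autoImplicit false

namespace Pool.Agent.Q53.WR

open Finset Pool.Agent.TH176.Nag Pool.Agent.TH603.Sur Pool.Agent.TH2.NU Pool.Agent.TH641.UM
open Pool.Agent.Y205.FW Pool.Agent.Y205.MD Pool.Agent.H200W

theorem surM_mono {M : Multiset ℕ} {S S' : Set (ℤ × ℤ)} (h : SurM M S') (hS : S' ⊆ S) : SurM M S :=
  Sur.mono h hS

theorem sum_nonneg_snd {β : Type} (L : List (β × ℝ)) (h : ∀ x ∈ L, 0 ≤ x.2) :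
    0 ≤ (L.map Prod.snd).sum := by
  apply List.sum_nonneg
  intro a ha
  obtain ⟨x, hx, rfl⟩ := List.mem_map.1 ha
  exact h x hx

theorem apexS : S_ApexS := by
  intro hRow hCut h u ρ hh L
  induction L generalizing ρ with
  | nil => 
    intro _ _
    simpa using surM_zero _
  | cons x L ih =>
    intro hL hs
    obtain ⟨M, n⟩ := x
    have hx := hL (M, n) (by simp)
    simp only at hx
    rw [List.map_cons, List.sum_cons] at hs
    rw [List.map_cons, List.sum_cons]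
    simp only at hs ⊢
    have hL' : ∀ x ∈ L, UnitS h x.1 x.2 ∧ 0 ≤ x.2 ∧ x.2 ≤ u :=
      fun y hy => hL y (List.mem_cons_of_mem _ hy)
    have h0 : 0 ≤ (L.map Prod.snd).sum := sum_nonneg_snd L fun y hy => (hL' y hy).2.1
    have hh2 : 0 < h ^ 2 := by positivity
    obtain ⟨ρ1, hρ1⟩ : ∃ ρ1 : ℝ, ρ1 = n / h ^ 2 := ⟨_, rfl⟩
    have e1 : ρ1 * h ^ 2 = n := by rw [hρ1, div_mul_cancel₀ _ hh2.ne']
    have hρ10 : 0 ≤ ρ1 := by rw [hρ1]; exact div_nonneg hx.2.1 hh2.le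
    have e2 : (L.map Prod.snd).sum ≤ (ρ - ρ1) * h ^ 2 := by
      have : (ρ - ρ1) * h ^ 2 = ρ * h ^ 2 - ρ1 * h ^ 2 := by ring
      rw [this, e1]
      linarith
    have hρ2 : 0 ≤ ρ - ρ1 := by
      have h3 : 0 ≤ (ρ - ρ1) * h ^ 2 := h0.trans e2
      exact nonneg_of_mul_nonneg_left h3 hh2
    have ih' := ih (ρ := ρ - ρ1) hL' e2
    have hM := hx.1 ρ1 e1.ge
    refine hCut (S1 := RO (ρ1 * h) ρ1) (S2 := {p | 0 < p.1 ∧ 0 < p.2 ∧
      ρ1 * (h - p.2) < (p.1 : ℝ) ∧ (p.1 : ℝ) < ρ * (h - p.2)}) 1 ρ1 (ρ1 * h) ?_ ?_ hM ?_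
    · rintro p ⟨h1, h2, h3⟩
      refine ⟨⟨h1, h2, ?_⟩, by linarith⟩
      have h1' : (0 : ℝ) < p.1 := by exact_mod_cast h1
      have h4 : (0 : ℝ) < ρ1 * (h - p.2) := by nlinarith
      have h5 : (0 : ℝ) < h - p.2 := pos_of_mul_pos_right h4 hρ10
      have h6 : ρ1 * (h - p.2) ≤ ρ * (h - p.2) := mul_le_mul_of_nonneg_right (by linarith) h5.le
      linarith
    · rintro p ⟨h1, h2, h3, h4⟩
      refine ⟨⟨h1, h2, ?_⟩, ?_⟩
      · linarith
      · linarith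
    · refine hRow (fun y => ρ1 * (h - y)) (fun y => if 0 < y then (ρ - ρ1) * (h - y) else 0) ?_
        (surM_mono ih' ?_)
      · intro x y h1 h2
        by_cases hy : 0 < y
        · rw [if_pos hy] at h2
          have h3 : 0 < (ρ - ρ1) * (h - y) := by linarith
          have h4 : 0 < h - y := pos_of_mul_pos_right h3 hρ2
          have h5 : 0 ≤ ρ1 * (h - y) := mul_nonneg hρ10 h4.le
          refine ⟨?_, hy, h1, by simp only; linarith⟩
          have : (0 : ℝ) < x := by linarith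
          exact_mod_cast this
        · rw [if_neg hy] at h2
          linarith
      · rintro p ⟨h1, h2, h3⟩
        refine ⟨h1, ?_⟩
        rw [if_pos h2]
        linarith

theorem RC_finite {b ρ : ℝ} (hρ : 0 < ρ) : (RC b ρ).Finite := by
  apply Set.Finite.subset ((Set.finite_Icc (0 : ℤ) ⌊b⌋).prod (Set.finite_Icc (0 : ℤ) ⌊b / ρ⌋))
  rintro p ⟨h1, h2, h3⟩
  have h1' : (0 : ℝ) ≤ p.1 := by exact_mod_cast h1
  have h2' : (0 : ℝ) ≤ p.2 := by exact_mod_cast h2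
  refine ⟨⟨h1, ?_⟩, ⟨h2, ?_⟩⟩
  · apply Int.le_floor.2
    have := mul_nonneg hρ.le h2'
    linarith
  · apply Int.le_floor.2
    rw [le_div_iff₀ hρ]
    linarith

theorem apexE : S_ApexE := by
  intro hRow hCut h u ρ hh hρ L
  induction L generalizing ρ with
  | nil => 
    intro _ hs
    simp only [List.map_nil, List.sum_nil] at hs
    have : 0 < ρ * h ^ 2 := by positivity
    linarith
  | cons x L ih =>
    intro hL hs
    obtain ⟨M, n⟩ := x
    have hx := hL (M, n) (by simp)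
    simp only at hx
    rw [List.map_cons, List.sum_cons] at hs
    rw [List.map_cons, List.sum_cons]
    simp only at hs ⊢
    have hL' : ∀ x ∈ L, UnitE h x.1 x.2 ∧ 0 ≤ x.2 ∧ x.2 ≤ u :=
      fun y hy => hL y (List.mem_cons_of_mem _ hy)
    have hh2 : 0 < h ^ 2 := by positivity
    obtain ⟨ρ1, hρ1⟩ : ∃ ρ1 : ℝ, ρ1 = n / h ^ 2 := ⟨_, rfl⟩
    have e1 : ρ1 * h ^ 2 = n := by rw [hρ1, div_mul_cancel₀ _ hh2.ne']
    have hρ10 : 0 ≤ ρ1 := by rw [hρ1]; exact div_nonneg hx.2.1 hh2.le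
    rcases le_or_gt ρ ρ1 with hle | hlt
    · refine EmpM.mono (hx.1 ρ hρ ?_) (Multiset.le_add_right _ _)
      rw [← e1]
      exact mul_le_mul_of_nonneg_right hle hh2.le
    rcases hρ10.eq_or_lt with h0 | h0
    · have hn : n = 0 := by rw [← e1, ← h0]; ring
      refine EmpM.mono (ih (ρ := ρ) hρ hL' ?_) (Multiset.le_add_left _ _)
      linarith
    have e2 : (ρ - ρ1) * h ^ 2 ≤ (L.map Prod.snd).sum := by
      have : (ρ - ρ1) * h ^ 2 = ρ * h ^ 2 - ρ1 * h ^ 2 := by ring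
      rw [this, e1]
      linarith
    have hρ2 : 0 < ρ - ρ1 := by linarith
    have ih' := ih (ρ := ρ - ρ1) hρ2 hL' e2
    have hM := hx.1 ρ1 h0 e1.le
    refine hCut (S := RC (ρ * h) ρ) (S1 := RC (ρ1 * h) ρ1) (S2 := {p | 0 ≤ p.2 ∧
      ρ1 * (h - p.2) < (p.1 : ℝ) ∧ (p.1 : ℝ) ≤ ρ * (h - p.2)}) 1 ρ1 (ρ1 * h) (RC_finite hρ) ?_ hM ?_
    · rintro p ⟨h1, h2, h3⟩
      rcases le_or_gt (1 * (p.1 : ℝ) + ρ1 * p.2) (ρ1 * h) with h4 | h4
      · exact Or.inl ⟨⟨h1, h2, by linarith⟩, h4⟩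
      · exact Or.inr ⟨⟨h2, by linarith, by linarith⟩, h4⟩
    · refine hRow (fun y => ρ1 * (h - y)) (fun y => if 0 ≤ y then (ρ - ρ1) * (h - y) else -1) ?_
        (EmpM.mono_set ih' ?_)
      · rintro x y ⟨h1, h2, h3⟩
        simp only at h1 h2 h3 ⊢
        rw [if_pos h1]
        exact ⟨h2.le, by linarith⟩
      · rintro p ⟨h1, h2⟩
        have h1' : (0 : ℝ) ≤ p.1 := by exact_mod_cast h1
        by_cases hy : 0 ≤ p.2
        · rw [if_pos hy] at h2
          exact ⟨h1, hy, by linarith⟩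
        · rw [if_neg hy] at h2
          linarith

end Pool.Agent.Q53.WR
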