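import Pool.Agent.H200W.Stm4

/-! Project WR: jobs ATTACH and UNITS. -/

set_option autoImplicit false

namespace Pool.Agent.Q53.WR

open Finset Pool.Agent.TH176.Nag Pool.Agent.TH603.Sur Pool.Agent.TH2.NU Pool.Agent.TH641.UM
open Pool.Agent.Y205.FW Pool.Agent.Y205.MD Pool.Agent.H200W

/-- the condition on blocks -/
def BP (h : ℝ) (x : ℕ × ℕ) : Prop := 16 ≤ x.2 ∧ 16 * ((x.2 : ℝ) + 1) ≤ h ∧ 4 * h ≤ x.1 * (x.2 : ℝ) ∧
    (x.1 : ℝ) * ((x.2 : ℝ) + 1) ^ 2 ≤ 600 * h ^ 2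

theorem single_unit (hBS : BlockS) (hBE : BlockE) {h : ℝ} (hh : 16 ≤ h) {N a : ℕ}
    (hx : BP h (N, a)) :
    UnitS h (Multiset.replicate N a) (N * ((a : ℝ) + 1) ^ 2 + 2 * h) ∧
    UnitE h (Multiset.replicate N a) (N * (a : ℝ) ^ 2 - 1) ∧
    0 ≤ N * ((a : ℝ) + 1) ^ 2 + 2 * h ∧ N * ((a : ℝ) + 1) ^ 2 + 2 * h ≤ 1024 * h ^ 2 ∧
    0 ≤ N * (a : ℝ) ^ 2 - 1 ∧ N * (a : ℝ) ^ 2 - 1 ≤ 1024 * h ^ 2 ∧
    N * ((a : ℝ) + 1) ^ 2 + 2 * h ≤ N * ((a : ℝ) + 1) ^ 2 + (N : ℝ) * ((a : ℝ) + 1) / 2 ∧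
    N * (a : ℝ) ^ 2 ≤ N * (a : ℝ) ^ 2 - 1 + (N : ℝ) * ((a : ℝ) + 1) / 2 := by
  obtain ⟨h1, h2, h3, h4⟩ := hx
  simp only at h1 h2 h3 h4
  have ha : (16 : ℝ) ≤ a := by exact_mod_cast h1
  have hN : (0 : ℝ) ≤ N := Nat.cast_nonneg _
  have h5 : (N : ℝ) * ((a : ℝ) + 1) = N * a + N := by ring
  have h6 : (N : ℝ) * (a : ℝ) ^ 2 = N * a * a := by ring
  have h7 : 64 * 16 ≤ (N : ℝ) * a * a := by
    have : 64 ≤ (N : ℝ) * a := by linarith
    exact mul_le_mul this ha (by norm_num) (by linarith)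
  have h8 : (N : ℝ) * (a : ℝ) ^ 2 ≤ N * ((a : ℝ) + 1) ^ 2 := by
    apply mul_le_mul_of_nonneg_left _ hN
    apply pow_le_pow_left₀ (by linarith)
    linarith
  have h9 : 16 * h ≤ h ^ 2 := by nlinarith
  refine ⟨hBS (by linarith) (by linarith), hBE (by omega) (by linarith) h3, by positivity, by linarith,
    by linarith, by linarith, by linarith, by linarith⟩

theorem rare_unit (hRS : RareS) (hRE : RareE) {h : ℝ} (hh : 16 ≤ h) {N u k l : ℕ}
    (hx : BP h (N, u)) (hN : 256 * h ^ 2 ≤ N * (u : ℝ) ^ 2)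
    (hy : 1 ≤ k ∧ 1 ≤ l ∧ 16 * ((l : ℝ) + 1) ≤ h ∧ k * ((l : ℝ) + 1) ≤ 256 * h) :
    UnitS h (Multiset.replicate N u + Multiset.replicate k l)
      (N * ((u : ℝ) + 1) ^ 2 + k * ((l : ℝ) + 1) ^ 2 + 4 * h) ∧
    UnitE h (Multiset.replicate N u + Multiset.replicate k l)
      (N * (u : ℝ) ^ 2 + k * (l : ℝ) ^ 2 - 1) ∧
    0 ≤ N * ((u : ℝ) + 1) ^ 2 + k * ((l : ℝ) + 1) ^ 2 + 4 * h ∧
    N * ((u : ℝ) + 1) ^ 2 + k * ((l : ℝ) + 1) ^ 2 + 4 * h ≤ 1024 * h ^ 2 ∧
    0 ≤ N * (u : ℝ) ^ 2 + k * (l : ℝ) ^ 2 - 1 ∧ N * (u : ℝ) ^ 2 + k * (l : ℝ) ^ 2 - 1 ≤ 1024 * h ^ 2 ∧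
    N * ((u : ℝ) + 1) ^ 2 + k * ((l : ℝ) + 1) ^ 2 + 4 * h ≤
      N * ((u : ℝ) + 1) ^ 2 + k * ((l : ℝ) + 1) ^ 2 + (N : ℝ) * ((u : ℝ) + 1) / 2 ∧
    N * (u : ℝ) ^ 2 + k * (l : ℝ) ^ 2 ≤ N * (u : ℝ) ^ 2 + k * (l : ℝ) ^ 2 - 1 +
      (N : ℝ) * ((u : ℝ) + 1) / 2 := by
  obtain ⟨h1, h2, h3, h4⟩ := hx
  simp only at h1 h2 h3 h4
  obtain ⟨y1, y2, y3, y4⟩ := hy
  have hu : (16 : ℝ) ≤ u := by exact_mod_cast h1
  have hN0 : (0 : ℝ) ≤ N := Nat.cast_nonneg _
  have hk0 : (0 : ℝ) ≤ k := Nat.cast_nonneg _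
  have hl0 : (0 : ℝ) ≤ l := Nat.cast_nonneg _
  have h5 : (N : ℝ) * ((u : ℝ) + 1) = N * u + N := by ring
  have h8 : (N : ℝ) * (u : ℝ) ^ 2 ≤ N * ((u : ℝ) + 1) ^ 2 := by
    apply mul_le_mul_of_nonneg_left _ hN0
    apply pow_le_pow_left₀ (by linarith)
    linarith
  have h9 : 16 * h ≤ h ^ 2 := by nlinarith
  have h10 : (k : ℝ) * ((l : ℝ) + 1) ^ 2 ≤ 16 * h ^ 2 := by
    have e : (k : ℝ) * ((l : ℝ) + 1) ^ 2 = k * (l + 1) * (l + 1) := by ring
    have e2 : (k : ℝ) * (l + 1) * (l + 1) ≤ 256 * h * (h / 16) :=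
      mul_le_mul y4 (by linarith) (by linarith) (by linarith)
    rw [e]
    calc (k : ℝ) * (l + 1) * (l + 1) ≤ 256 * h * (h / 16) := e2
      _ = 16 * h ^ 2 := by ring
  have h11 : (k : ℝ) * (l : ℝ) ^ 2 ≤ k * ((l : ℝ) + 1) ^ 2 := by
    apply mul_le_mul_of_nonneg_left _ hk0
    apply pow_le_pow_left₀ hl0
    linarith
  have h12 : 0 ≤ (k : ℝ) * (l : ℝ) ^ 2 := by positivity
  have h13 : 8 * h ≤ (N : ℝ) * u := by
    by_contra hc
    push Not at hc
    have e1 : (N : ℝ) * (u : ℝ) ^ 2 = N * u * u := by ring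
    have e2 : (N : ℝ) * u * u ≤ 8 * h * (h / 16) :=
      mul_le_mul hc.le (by linarith) (by linarith) (by linarith)
    have e3 : 8 * h * (h / 16) = h ^ 2 / 2 := by ring
    have e4 : 0 < h ^ 2 := by positivity
    linarith
  have h14 : (k : ℝ) * ((l : ℝ) + 1) * h ≤ 256 * h ^ 2 := by
    have : (k : ℝ) * ((l : ℝ) + 1) * h ≤ 256 * h * h := mul_le_mul_of_nonneg_right y4 (by linarith)
    calc (k : ℝ) * ((l : ℝ) + 1) * h ≤ 256 * h * h := this
      _ = 256 * h ^ 2 := by ring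
  have h15 : (k : ℝ) * (l : ℝ) * h ≤ (k : ℝ) * ((l : ℝ) + 1) * h := by
    apply mul_le_mul_of_nonneg_right _ (by linarith)
    apply mul_le_mul_of_nonneg_left _ hk0
    linarith
  have h16 : 0 ≤ h ^ 2 := by positivity
  have h17 : 0 ≤ (k : ℝ) * ((l : ℝ) + 1) ^ 2 := by positivity
  have h18 : 0 ≤ (N : ℝ) * ((u : ℝ) + 1) ^ 2 := by positivity
  refine ⟨hRS y1 h2 y3 (by linarith) (by linarith),
    hRE y1 (by omega) y2 h2 y3 (by linarith) (by linarith), by linarith, by linarith,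
    by linarith, by linarith, by linarith, by linarith⟩

theorem attach : S_Attach := by
  intro hBS hBE hRS hRE h B C R hh hBC hB hR hlen
  have key0 : ∀ D : List (ℕ × ℕ), (∀ x ∈ D, BP h x) → ∃ L : List (Multiset ℕ × ℝ × ℝ),
      (∀ x ∈ L, UnitS h x.1 x.2.1 ∧ UnitE h x.1 x.2.2 ∧ 0 ≤ x.2.1 ∧ x.2.1 ≤ 1024 * h ^ 2 ∧
        0 ≤ x.2.2 ∧ x.2.2 ≤ 1024 * h ^ 2) ∧
      (L.map fun x => x.1).sum = (D.map fun x => Multiset.replicate x.1 x.2).sum ∧
      (L.map fun x => x.2.1).sum ≤ (D.map fun x => (x.1 : ℝ) * ((x.2 : ℝ) + 1) ^ 2).sum +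
        (D.map fun x => (x.1 : ℝ) * ((x.2 : ℝ) + 1) / 2).sum ∧
      (D.map fun x => (x.1 : ℝ) * (x.2 : ℝ) ^ 2).sum ≤
        (L.map fun x => x.2.2).sum + (D.map fun x => (x.1 : ℝ) * ((x.2 : ℝ) + 1) / 2).sum := by
    intro D hD
    induction D with
    | nil => exact ⟨[], by simp, by simp, by simp, by simp⟩
    | cons y D ih =>
      obtain ⟨L, l1, l2, l3, l4⟩ := ih fun x hx => hD x (List.mem_cons_of_mem _ hx)
      obtain ⟨N, a⟩ := y
      obtain ⟨u1, u2, u3, u4, u5, u6, u7, u8⟩ := single_unit hBS hBE hh (hD (N, a) (by simp))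
      refine ⟨(Multiset.replicate N a, N * ((a : ℝ) + 1) ^ 2 + 2 * h, N * (a : ℝ) ^ 2 - 1) :: L,
        ?_, ?_, ?_, ?_⟩
      · intro x hx
        rcases List.mem_cons.1 hx with rfl | hx
        · exact ⟨u1, u2, u3, u4, u5, u6⟩
        · exact l1 x hx
      · simp only [List.map_cons, List.sum_cons, l2]
      · simp only [List.map_cons, List.sum_cons]
        linarith
      · simp only [List.map_cons, List.sum_cons]
        linarith
  induction R generalizing B with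
  | nil =>
    obtain ⟨L, l1, l2, l3, l4⟩ := key0 (B ++ C) hBC
    exact ⟨L, l1, by simpa using l2, by simpa using l3, by simpa using l4⟩
  | cons y R ih =>
    cases B with
    | nil => simp at hlen
    | cons z B =>
      obtain ⟨L, l1, l2, l3, l4⟩ := ih B
        (fun x hx => hBC x (by rw [List.cons_append]; exact List.mem_cons_of_mem _ hx))
        (fun x hx => hB x (List.mem_cons_of_mem _ hx)) (fun x hx => hR x (List.mem_cons_of_mem _ hx))
        (by simpa using hlen)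
      obtain ⟨N, u⟩ := z
      obtain ⟨k, l⟩ := y
      obtain ⟨u1, u2, u3, u4, u5, u6, u7, u8⟩ := rare_unit hRS hRE hh (hBC (N, u) (by simp))
        (hB (N, u) (by simp)) (hR (k, l) (by simp))
      refine ⟨(Multiset.replicate N u + Multiset.replicate k l,
        N * ((u : ℝ) + 1) ^ 2 + k * ((l : ℝ) + 1) ^ 2 + 4 * h,
        N * (u : ℝ) ^ 2 + k * (l : ℝ) ^ 2 - 1) :: L, ?_, ?_, ?_, ?_⟩
      · intro x hx
        rcases List.mem_cons.1 hx with rfl | hx
        · exact ⟨u1, u2, u3, u4, u5, u6⟩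
        · exact l1 x hx
      · simp only [List.map_cons, List.sum_cons, List.map_append, List.sum_append,
          List.cons_append] at l2 ⊢
        rw [l2]
        abel
      · simp only [List.map_cons, List.sum_cons, List.map_append, List.sum_append,
          List.cons_append] at l3 ⊢
        linarith
      · simp only [List.map_cons, List.sum_cons, List.map_append, List.sum_append,
          List.cons_append] at l4 ⊢
        linarith

theorem blocks (hSp : S_Split) {h : ℝ} (V : Finset ℕ) (N a : ℕ → ℕ)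
    (hV : ∀ v ∈ V, 1 ≤ N v ∧ 16 ≤ a v ∧ 16 * ((a v : ℝ) + 1) ≤ h ∧ 4 * h ≤ N v * (a v : ℝ)) :
    ∃ B C : List (ℕ × ℕ), (∀ x ∈ B ++ C, BP h x) ∧ (∀ x ∈ B, 256 * h ^ 2 ≤ x.1 * (x.2 : ℝ) ^ 2) ∧
      ((B ++ C).map fun x => Multiset.replicate x.1 x.2).sum =
        ∑ v ∈ V, Multiset.replicate (N v) (a v) ∧
      (∀ g : ℕ → ℝ, ((B ++ C).map fun x => (x.1 : ℝ) * g x.2).sum = ∑ v ∈ V, (N v : ℝ) * g (a v)) ∧
      ∑ v ∈ V, (N v : ℝ) * (a v : ℝ) ^ 2 ≤ 257 * h ^ 2 * ((B.length : ℝ) + V.card) := by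
  classical
  induction V using Finset.induction_on with
  | empty => exact ⟨[], [], by simp, by simp, by simp, by simp, by simp⟩
  | insert v V hv ih =>
    obtain ⟨B, C, b1, b2, b3, b4, b5⟩ := ih fun w hw => hV w (Finset.mem_insert_of_mem hw)
    obtain ⟨v1, v2, v3, v4⟩ := hV v (Finset.mem_insert_self _ _)
    obtain ⟨m, l, m1, m2, m3, m4⟩ := hSp v1 v2 v3 v4
    have hrep : ∀ l : List ℕ, ((l.map fun n => (n, a v)).map fun x : ℕ × ℕ => Multiset.replicate x.1 x.2).sum =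
        Multiset.replicate l.sum (a v) := by
      intro l
      induction l with
      | nil => simp
      | cons n l ihl =>
        simp only [List.map_cons, List.sum_cons] at ihl ⊢
        rw [ihl, Multiset.replicate_add]
    have hg : ∀ (g : ℕ → ℝ) (l : List ℕ), ((l.map fun n => (n, a v)).map fun x : ℕ × ℕ =>
        (x.1 : ℝ) * g x.2).sum = (l.sum : ℝ) * g (a v) := by
      intro g l
      induction l with
      | nil => simp
      | cons n l ihl =>
        simp only [List.map_cons, List.sum_cons] at ihl ⊢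
        rw [ihl]
        push_cast
        ring
    have hl : ∀ x ∈ l.map fun n => (n, a v), BP h x := by
      intro x hx
      obtain ⟨n, hn, rfl⟩ := List.mem_map.1 hx
      exact ⟨v2, v3, (m2 n hn).1, (m2 n hn).2⟩
    rcases m3 with hm0 | ⟨hm, hm'⟩
    · refine ⟨B, (l.map fun n => (n, a v)) ++ C, ?_, b2, ?_, ?_, ?_⟩
      · intro x hx
        rw [List.mem_append, List.mem_append] at hx
        rcases hx with hx | hx | hx
        · exact b1 x (List.mem_append_left _ hx)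
        · exact hl x hx
        · exact b1 x (List.mem_append_right _ hx)
      · rw [Finset.sum_insert hv, ← b3, ← m1, ← hrep l]
        simp only [List.map_append, List.sum_append]
        abel
      · intro g
        rw [Finset.sum_insert hv, ← b4, ← m1, ← hg g l]
        simp only [List.map_append, List.sum_append]
        ring
      · rw [Finset.sum_insert hv, Finset.card_insert_of_notMem hv]
        rw [hm0] at m4
        push_cast at m4 ⊢
        linarith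
    · refine ⟨(l.map fun n => (n, a v)) ++ B, C, ?_, ?_, ?_, ?_, ?_⟩
      · intro x hx
        rw [List.mem_append, List.mem_append] at hx
        rcases hx with (hx | hx) | hx
        · exact hl x hx
        · exact b1 x (List.mem_append_left _ hx)
        · exact b1 x (List.mem_append_right _ hx)
      · intro x hx
        rw [List.mem_append] at hx
        rcases hx with hx | hx
        · obtain ⟨n, hn, rfl⟩ := List.mem_map.1 hx
          exact hm' n hn
        · exact b2 x hx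
      · rw [Finset.sum_insert hv, ← b3, ← m1, ← hrep l]
        simp only [List.map_append, List.sum_append]
        abel
      · intro g
        rw [Finset.sum_insert hv, ← b4, ← m1, ← hg g l]
        simp only [List.map_append, List.sum_append]
        ring
      · rw [Finset.sum_insert hv, Finset.card_insert_of_notMem hv, List.length_append,
          List.length_map, ← hm]
        push_cast
        linarith

theorem units : S_Units := by
  intro hSp hAt h V N a R hh hV hR hlen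
  obtain ⟨B, C, b1, b2, b3, b4, b5⟩ := blocks hSp V N a hV
  have hpos : 0 < h ^ 2 := by positivity
  have hRB : R.length ≤ B.length := by
    have h1 : 257 * h ^ 2 * ((R.length : ℝ) + V.card) ≤ 257 * h ^ 2 * ((B.length : ℝ) + V.card) :=
      hlen.trans b5
    have h2 : ((R.length : ℝ) + V.card) ≤ ((B.length : ℝ) + V.card) :=
      le_of_mul_le_mul_left h1 (by positivity)
    have h3 : (R.length : ℝ) ≤ B.length := by linarith
    exact_mod_cast h3
  obtain ⟨L, l1, l2, l3, l4⟩ := hAt B C R hh b1 b2 hR hRB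
  have e1 := b4 fun n => ((n : ℝ) + 1) ^ 2
  have e2 := b4 fun n => ((n : ℝ) + 1) / 2
  have e3 := b4 fun n => (n : ℝ) ^ 2
  simp only [← mul_div_assoc] at e2
  refine ⟨L, l1, ?_, ?_, ?_⟩
  · rw [l2, List.map_append, List.sum_append, b3]
  · rw [List.map_append, List.sum_append, e1, e2] at l3
    rw [Finset.sum_add_distrib]
    linarith
  · rw [List.map_append, List.sum_append, e3, e2] at l4
    rw [Finset.sum_sub_distrib]
    linarith

end Pool.Agent.Q53.WR
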