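import Pool.Agent.H200W.Stm4

/-! Project WR: job SPLIT. -/

set_option autoImplicit false

namespace Pool.Agent.Q53.WR

open Finset Pool.Agent.TH176.Nag Pool.Agent.TH603.Sur Pool.Agent.TH2.NU Pool.Agent.TH641.UM
open Pool.Agent.Y205.FW Pool.Agent.Y205.MD Pool.Agent.H200W

theorem split : S_Split := by
  intro N a h hN ha hh h4
  have haR : (16 : ℝ) ≤ a := by exact_mod_cast ha
  have ha0 : (0 : ℝ) < a := by linarith
  have ha2 : (0 : ℝ) < (a : ℝ) ^ 2 := by positivity
  have hh0 : 0 < h := by linarith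
  obtain ⟨q, hq⟩ : ∃ q : ℕ, q = ⌈256 * h ^ 2 / (a : ℝ) ^ 2⌉₊ := ⟨_, rfl⟩
  have hq1 : 256 * h ^ 2 ≤ q * (a : ℝ) ^ 2 := by
    have := Nat.le_ceil (256 * h ^ 2 / (a : ℝ) ^ 2)
    rw [← hq, div_le_iff₀ ha2] at this
    exact this
  have hq2 : (q : ℝ) * (a : ℝ) ^ 2 ≤ 257 * h ^ 2 := by
    have := Nat.ceil_lt_add_one (show (0 : ℝ) ≤ 256 * h ^ 2 / (a : ℝ) ^ 2 by positivity)
    rw [← hq] at this
    have h1 : (q : ℝ) * (a : ℝ) ^ 2 ≤ (256 * h ^ 2 / (a : ℝ) ^ 2 + 1) * (a : ℝ) ^ 2 :=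
      mul_le_mul_of_nonneg_right this.le ha2.le
    rw [add_mul, div_mul_cancel₀ _ ha2.ne'] at h1
    have h2 : (a : ℝ) ^ 2 ≤ h ^ 2 := by
      apply pow_le_pow_left₀ ha0.le
      linarith
    linarith
  have hqpos : 0 < q := by
    rcases Nat.eq_zero_or_pos q with h0 | h0
    · rw [h0] at hq1
      have : 0 < h ^ 2 := by positivity
      simp at hq1
      linarith
    · exact h0
  have hq3 : (q : ℝ) * ((a : ℝ) + 1) ^ 2 ≤ 300 * h ^ 2 := by
    have h1 : ((a : ℝ) + 1) ^ 2 ≤ 289 / 256 * (a : ℝ) ^ 2 := by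
      have : ((a : ℝ) + 1) ≤ 17 / 16 * a := by linarith
      calc ((a : ℝ) + 1) ^ 2 ≤ (17 / 16 * (a : ℝ)) ^ 2 := pow_le_pow_left₀ (by positivity) this 2
        _ = 289 / 256 * (a : ℝ) ^ 2 := by ring
    have h2 : (q : ℝ) * ((a : ℝ) + 1) ^ 2 ≤ q * (289 / 256 * (a : ℝ) ^ 2) :=
      mul_le_mul_of_nonneg_left h1 (by positivity)
    have h3 : 0 < h ^ 2 := by positivity
    nlinarith
  have hq4 : 4 * h ≤ q * (a : ℝ) := by
    have h1 : 16 * (a : ℝ) ≤ h := by linarith
    by_contra hc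
    push Not at hc
    have h2 : (q : ℝ) * (a : ℝ) ^ 2 < 4 * h * a := by
      have := mul_lt_mul_of_pos_right hc ha0
      calc (q : ℝ) * (a : ℝ) ^ 2 = q * a * a := by ring
        _ < _ := this
    have h3 : 4 * h * a ≤ h * h := by nlinarith
    have h4 : 0 < h ^ 2 := by positivity
    nlinarith
  by_cases hNq : N < q
  · refine ⟨0, [N], by simp, ?_, Or.inl rfl, ?_⟩
    · intro n hn
      rw [List.mem_singleton] at hn
      subst hn
      refine ⟨h4, ?_⟩
      have h1 : (n : ℝ) ≤ q := by exact_mod_cast hNq.le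
      have h2 : (n : ℝ) * ((a : ℝ) + 1) ^ 2 ≤ q * ((a : ℝ) + 1) ^ 2 :=
        mul_le_mul_of_nonneg_right h1 (by positivity)
      have h3 : 0 < h ^ 2 := by positivity
      linarith
    · have h1 : (N : ℝ) ≤ q := by exact_mod_cast hNq.le
      have h2 : (N : ℝ) * (a : ℝ) ^ 2 ≤ q * (a : ℝ) ^ 2 :=
        mul_le_mul_of_nonneg_right h1 (by positivity)
      simp only [Nat.cast_zero, zero_add, mul_one]
      linarith
  · push Not at hNq
    have hm : 1 ≤ N / q := (Nat.one_le_div_iff hqpos).2 hNq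
    refine ⟨N / q, List.replicate (N / q - 1) q ++ [q + N % q], ?_, ?_, Or.inr ⟨?_, ?_⟩, ?_⟩
    · rw [List.sum_append, List.sum_replicate, List.sum_singleton, smul_eq_mul]
      have h1 := Nat.div_add_mod N q
      have h2 : (N / q - 1) * q + q = q * (N / q) := by
        obtain ⟨k, hk⟩ := Nat.exists_eq_add_of_le hm
        rw [hk]
        rw [Nat.add_sub_cancel_left]
        ring
      omega
    · intro n hn
      have hn2 : q ≤ n ∧ n ≤ 2 * q := by
        rw [List.mem_append, List.mem_replicate, List.mem_singleton] at hn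
        have := Nat.mod_lt N hqpos
        rcases hn with hn | hn
        · omega
        · omega
      have h1 : (q : ℝ) ≤ n := by exact_mod_cast hn2.1
      have h2 : (n : ℝ) ≤ 2 * q := by exact_mod_cast hn2.2
      refine ⟨hq4.trans (mul_le_mul_of_nonneg_right h1 ha0.le), ?_⟩
      have h3 : (n : ℝ) * ((a : ℝ) + 1) ^ 2 ≤ 2 * q * ((a : ℝ) + 1) ^ 2 :=
        mul_le_mul_of_nonneg_right h2 (by positivity)
      linarith
    · rw [List.length_append, List.length_replicate, List.length_singleton]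
      omega
    · intro n hn
      have hn2 : q ≤ n := by
        rw [List.mem_append, List.mem_replicate, List.mem_singleton] at hn
        rcases hn with hn | hn
        · omega
        · omega
      have h1 : (q : ℝ) ≤ n := by exact_mod_cast hn2
      exact hq1.trans (mul_le_mul_of_nonneg_right h1 ha2.le)
    · have h1 : N < q * (N / q + 1) := by
        have := Nat.div_add_mod N q
        have := Nat.mod_lt N hqpos
        rw [mul_add, mul_one]
        omega
      have h2 : (N : ℝ) ≤ q * (((N / q : ℕ) : ℝ) + 1) := by exact_mod_cast h1.le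
      have h3 : (N : ℝ) * (a : ℝ) ^ 2 ≤ q * (((N / q : ℕ) : ℝ) + 1) * (a : ℝ) ^ 2 :=
        mul_le_mul_of_nonneg_right h2 ha2.le
      have h4 : (q : ℝ) * (((N / q : ℕ) : ℝ) + 1) * (a : ℝ) ^ 2 =
        q * (a : ℝ) ^ 2 * (((N / q : ℕ) : ℝ) + 1) := by ring
      rw [h4] at h3
      exact h3.trans (mul_le_mul_of_nonneg_right hq2 (by positivity))

end Pool.Agent.Q53.WR
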